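import Pool.Agent.H335.TC.Ord

/-!
# Good words of a permutation
-/

set_option autoImplicit false

namespace Pool.Agent.H335.TC

open Pool.Agent.K7.H92.WF Equiv.Perm

/-- `l` acts on the cone of the word `p` as an element of `V` followed by a translation -/
def good (l : Equiv.Perm (List ℕ)) (p : List ℕ) : Prop :=
  ∃ v ∈ V, ∀ q, l (p ++ q) = l p ++ v q

/-- the words that are not good -/
def I (l : Equiv.Perm (List ℕ)) : Set (List ℕ) := {p | ¬ good l p}

theorem not_mem_I {l : Equiv.Perm (List ℕ)} {p : List ℕ} : p ∉ I l ↔ good l p := not_not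

theorem apply_inv {l : Equiv.Perm (List ℕ)} (p : List ℕ) : l (l⁻¹ p) = p := l.apply_symm_apply p
theorem inv_apply {l : Equiv.Perm (List ℕ)} (p : List ℕ) : l⁻¹ (l p) = p := l.symm_apply_apply p

theorem good_append_V {v : Equiv.Perm (List ℕ)} (hv : v ∈ V) (p : List ℕ) :
    ∃ w ∈ V, ∀ q, v (p ++ q) = v p ++ w q := by
  obtain ⟨φ, rfl⟩ := hv
  induction p generalizing φ with
  | nil => exact ⟨act φ, act_mem φ, fun q => rfl⟩
  | cons x p ih =>
    obtain ⟨w, hw, h⟩ := ih (fun p => φ (x :: p))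
    exact ⟨w, hw, fun q => by rw [List.cons_append, act_cons, act_cons, h, List.cons_append]⟩

theorem good_of_V {v : Equiv.Perm (List ℕ)} (hv : v ∈ V) (p : List ℕ) : good v p :=
  good_append_V hv p

theorem good_append {l : Equiv.Perm (List ℕ)} {p : List ℕ} (h : good l p) (r : List ℕ) :
    good l (p ++ r) := by
  obtain ⟨v, hv, h⟩ := h
  obtain ⟨w, hw, h'⟩ := good_append_V hv r
  refine ⟨w, hw, fun q => ?_⟩
  rw [List.append_assoc, h, h', h, List.append_assoc]

theorem good_mul {k l : Equiv.Perm (List ℕ)} {p : List ℕ} (hl : good l p) (hk : good k (l p)) :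
    good (k * l) p := by
  obtain ⟨v, hv, h⟩ := hl
  obtain ⟨w, hw, h'⟩ := hk
  refine ⟨w * v, V.mul_mem hw hv, fun q => ?_⟩
  rw [mul_apply, h, h', mul_apply, mul_apply]

theorem good_inv {l : Equiv.Perm (List ℕ)} {p : List ℕ} (h : good l p) : good l⁻¹ (l p) := by
  obtain ⟨v, hv, h⟩ := h
  refine ⟨v⁻¹, V.inv_mem hv, fun q => ?_⟩
  have h1 := h (v⁻¹ q)
  rw [apply_inv] at h1
  rw [← h1, inv_apply, inv_apply]

theorem good_nil_iff {l : Equiv.Perm (List ℕ)} : good l [] ↔ l ∈ V := by
  constructor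
  · rintro ⟨v, hv, h⟩
    have h0 : l [] = [] := by
      have h1 := h (v⁻¹ (l⁻¹ []).tail)
      obtain ⟨q, hq⟩ : ∃ q, l q = [] := ⟨l⁻¹ [], apply_inv _⟩
      have h2 := h q
      rw [List.nil_append, hq] at h2
      have := congrArg List.length h2
      rw [List.length_append] at this
      exact List.length_eq_zero_iff.1 (by simp at this; omega)
    have : l = v := by
      ext q : 1
      have := h q
      rwa [h0] at this
    rw [this]; exact hv
  · intro h
    exact good_of_V h []

/-- the class of permutations we work with -/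
structure InL (l : Equiv.Perm (List ℕ)) : Prop where
  pres : Pres l
  fin : (I l).Finite

theorem I_mul_subset (k l : Equiv.Perm (List ℕ)) : I (k * l) ⊆ I l ∪ l ⁻¹' (I k) := by
  intro p hp
  by_contra h
  rw [Set.mem_union, not_or, not_mem_I] at h
  exact hp (good_mul h.1 (not_mem_I.1 h.2))

theorem InL.mul {k l : Equiv.Perm (List ℕ)} (hk : InL k) (hl : InL l) : InL (k * l) where
  pres := hk.pres.mul hl.pres
  fin := (hl.fin.union (hk.fin.preimage l.injective.injOn)).subset (I_mul_subset k l)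

theorem I_inv_subset (l : Equiv.Perm (List ℕ)) : I l⁻¹ ⊆ l '' I l := by
  intro p hp
  refine ⟨l⁻¹ p, fun h => hp ?_, apply_inv p⟩
  have := good_inv h
  rwa [apply_inv] at this

theorem InL.inv {l : Equiv.Perm (List ℕ)} (hl : InL l) : InL l⁻¹ where
  pres := hl.pres.inv
  fin := (hl.fin.image l).subset (I_inv_subset l)

theorem InL.ofV {v : Equiv.Perm (List ℕ)} (hv : v ∈ V) : InL v where
  pres := Pres.ofV hv
  fin := by
    have : I v = ∅ := by
      ext p
      simp only [Set.mem_empty_iff_false, iff_false, not_mem_I]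
      exact good_of_V hv p
    rw [this]; exact Set.finite_empty

theorem good_of_one {l : Equiv.Perm (List ℕ)} {p : List ℕ} (h : ∀ q, l (p ++ q) = l p ++ q) :
    good l p := ⟨1, V.one_mem, h⟩

theorem good_a {p : List ℕ} (h0 : p ≠ []) (h1 : p ≠ [1]) (q : List ℕ) : a (p ++ q) = a p ++ q := by
  rcases p with _ | ⟨x, p⟩
  · exact absurd rfl h0
  · rcases x with _ | _ | x
    · rfl
    · rcases p with _ | ⟨y, p⟩
      · exact absurd rfl h1
      · rcases y with _ | y <;> rfl
    · rfl

theorem good_ai {p : List ℕ} (h0 : p ≠ []) (h1 : p ≠ [0]) (q : List ℕ) :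
    a⁻¹ (p ++ q) = a⁻¹ p ++ q := by
  rcases p with _ | ⟨x, p⟩
  · exact absurd rfl h0
  · rcases x with _ | x
    · rcases p with _ | ⟨y, p⟩
      · exact absurd rfl h1
      · rcases y with _ | _ | y <;> rfl
    · rfl

theorem InL.a : InL a where
  pres := Pres.a
  fin := by
    refine Set.Finite.subset (Set.toFinite {[], [1]}) fun p hp => ?_
    by_contra h
    simp only [Set.mem_insert_iff, Set.mem_singleton_iff, not_or] at h
    exact hp (good_of_one (good_a h.1 h.2))

theorem InL.g (r : Fin 3) : InL (g r) where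
  pres := Pres.g r
  fin := by
    refine Set.Finite.subset (Set.toFinite {[]}) fun p hp => ?_
    by_contra h
    simp only [Set.mem_singleton_iff] at h
    apply hp
    rcases p with _ | ⟨x, p⟩
    · exact absurd rfl h
    · exact good_of_one fun q => rfl

theorem InL.t : InL t where
  pres := Pres.t
  fin := by
    refine Set.Finite.subset (Set.toFinite {[], [1], [1, 1], [2], [2, 0]}) fun p hp => ?_
    by_contra h
    simp only [Set.mem_insert_iff, Set.mem_singleton_iff, not_or] at h
    apply hp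
    obtain ⟨h0, h1, h2, h3, h4⟩ := h
    rcases p with _ | ⟨x, p⟩
    · exact absurd rfl h0
    · by_cases k1 : x = 1
      · subst k1
        refine good_of_one fun q => ?_
        rw [List.cons_append, t_one, t_one, good_a, List.cons_append]
        · rintro rfl; exact h1 rfl
        · rintro rfl; exact h2 rfl
      · by_cases k2 : x = 2
        · subst k2
          refine good_of_one fun q => ?_
          rw [List.cons_append, t_two, t_two, good_ai, List.cons_append]
          · rintro rfl; exact h3 rfl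
          · rintro rfl; exact h4 rfl
        · refine good_of_one fun q => ?_
          rw [List.cons_append, t_cons k1 k2, t_cons k1 k2, List.cons_append]

theorem InL.cone {k : Equiv.Perm (List ℕ)} (hk : InL k) {x : ℕ} (hx : x ≠ 0) :
    InL (cone x k) where
  pres := hk.pres.cone hx
  fin := by
    refine ((Set.finite_singleton ([] : List ℕ)).union
      (hk.fin.image (fun p => x :: p))).subset fun p hp => ?_
    by_contra h
    rw [Set.mem_union, not_or] at h
    apply hp
    rcases p with _ | ⟨y, p⟩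
    · exact absurd rfl h.1
    · by_cases hy : y = x
      · subst hy
        have h2 : good k p := by
          by_contra h3
          exact h.2 ⟨p, h3, rfl⟩
        obtain ⟨v, hv, h3⟩ := h2
        refine ⟨v, hv, fun q => ?_⟩
        rw [List.cons_append, cone_same, cone_same, h3, List.cons_append]
      · refine good_of_one fun q => ?_
        rw [List.cons_append, cone_ne hy, cone_ne hy, List.cons_append]

theorem InL.ofK {k : Equiv.Perm (List ℕ)} (hk : k ∈ Ksub) : InL k := by
  induction hk using Subgroup.closure_induction with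
  | mem x hx =>
    rcases hx with hx | hx
    · exact InL.ofV hx
    · simp only [gens, Set.mem_insert_iff, Set.mem_singleton_iff] at hx
      rcases hx with rfl | rfl | rfl | rfl | rfl | rfl
      · exact InL.g 1
      · exact InL.g 2
      · exact InL.t
      · exact (InL.g 1).cone one_ne_zero
      · exact (InL.g 2).cone one_ne_zero
      · exact InL.t.cone one_ne_zero
  | one => exact InL.ofV V.one_mem
  | mul x y _ _ hx hy => exact hx.mul hy
  | inv x _ hx => exact hx.inv

/-! ### Slopes -/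

/-- If `0 ^ n` is good for `l` then `l` maps it to a word of zeros. -/
theorem slope {l : Equiv.Perm (List ℕ)} (hl : Pres l) {n : ℕ} (hn : good l (zs n)) :
    ∃ m, ∃ v ∈ V, ∀ q, l (zs n ++ q) = zs m ++ v q := by
  obtain ⟨v, hv, h⟩ := hn
  refine ⟨(l (zs n)).length, v, hv, fun q => ?_⟩
  rw [h]
  congr 1
  set p := l (zs n) with hp
  -- a long word of zeros is below `l⁻¹ (zs s)`
  set s := p.length with hs
  have h1 : le (zs (n + (l⁻¹ (zs s)).length)) (l⁻¹ (zs s)) := zs_le (by omega)
  have h2 := (hl _ _).2 h1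
  rw [apply_inv, zs_add, h, V_zs hv] at h2
  exact eq_zs_of_le le_rfl h2

/-! ### Separation -/

/-- There is a group of permutations that contains an open subgroup of `V`, is normalised by `l`
and does not contain `l`. -/
def Sep (l : Equiv.Perm (List ℕ)) : Prop :=
  ∃ (O : Subgroup (Equiv.Perm (List ℕ))) (F : Finset (List ℕ)),
    (∀ v ∈ V, (∀ p ∈ F, v p = p) → v ∈ O) ∧
    (∀ h ∈ O, l * h * l⁻¹ ∈ O) ∧ (∀ h ∈ O, l⁻¹ * h * l ∈ O) ∧ l ∉ O

/-- the finitely many words in the `V`-orbit of `p` -/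
def orb : List ℕ → Finset (List ℕ)
  | [] => {[]}
  | x :: p => (orb p).image (fun q => x :: q) ∪ (orb p).image (fun q => sw 0 x :: q)

theorem act_mem_orb (φ : List ℕ → Bool) (p : List ℕ) : act φ p ∈ orb p := by
  induction p generalizing φ with
  | nil => simp [orb, act_nil]
  | cons x p ih =>
    rw [act_cons, orb, Finset.mem_union, Finset.mem_image, Finset.mem_image]
    rcases h : φ [] with _ | _
    · left; exact ⟨_, ih _, rfl⟩
    · right; exact ⟨_, ih _, rfl⟩

theorem sep_V {l : Equiv.Perm (List ℕ)} (hl : l ∈ V) (h1 : l ≠ 1) : Sep l := by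
  classical
  have hp : ∃ p, l p ≠ p := by
    by_contra h
    push Not at h
    exact h1 (by ext p : 1; exact h p)
  obtain ⟨p, hp⟩ := hp
  let O : Subgroup (Equiv.Perm (List ℕ)) :=
    { carrier := {v | v ∈ V ∧ ∀ w ∈ V, v (w p) = w p}
      mul_mem' := by
        rintro x y ⟨hx, hx'⟩ ⟨hy, hy'⟩
        exact ⟨V.mul_mem hx hy, fun w hw => by rw [mul_apply, hy' w hw, hx' w hw]⟩
      one_mem' := ⟨V.one_mem, fun w _ => rfl⟩
      inv_mem' := by
        rintro x ⟨hx, hx'⟩
        refine ⟨V.inv_mem hx, fun w hw => ?_⟩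
        conv_lhs => rw [← hx' w hw]
        exact inv_apply _ }
  have hconj : ∀ l ∈ V, ∀ h ∈ O, l * h * l⁻¹ ∈ O := by
    rintro l hl h ⟨h1, h2⟩
    refine ⟨V.mul_mem (V.mul_mem hl h1) (V.inv_mem hl), fun w hw => ?_⟩
    have h3 := h2 (l⁻¹ * w) (V.mul_mem (V.inv_mem hl) hw)
    rw [mul_apply] at h3
    rw [mul_apply, mul_apply, h3, apply_inv]
  refine ⟨O, orb p, fun v hv h => ⟨hv, ?_⟩, hconj l hl, fun h hh => ?_, fun h => ?_⟩
  · rintro _ ⟨φ, rfl⟩
    exact h _ (act_mem_orb φ p)
  · have := hconj l⁻¹ (V.inv_mem hl) h hh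
    rwa [inv_inv] at this
  · exact hp (h.2 1 V.one_mem)

theorem sep_conj_a {l : Equiv.Perm (List ℕ)} (h : Sep (a⁻¹ * l * a)) : Sep l := by
  classical
  obtain ⟨O, F, h1, h2, h3, h4⟩ := h
  let O' : Subgroup (Equiv.Perm (List ℕ)) :=
    { carrier := {v | a⁻¹ * v * a ∈ O}
      mul_mem' := by
        intro x y hx hy
        have : a⁻¹ * (x * y) * a = (a⁻¹ * x * a) * (a⁻¹ * y * a) := by group
        change a⁻¹ * (x * y) * a ∈ O
        rw [this]; exact O.mul_mem hx hy
      one_mem' := by
        change a⁻¹ * 1 * a ∈ O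
        rw [mul_one, inv_mul_cancel]; exact O.one_mem
      inv_mem' := by
        intro x hx
        have : a⁻¹ * x⁻¹ * a = (a⁻¹ * x * a)⁻¹ := by group
        change a⁻¹ * x⁻¹ * a ∈ O
        rw [this]; exact O.inv_mem hx }
  refine ⟨O', F.image (fun p => a p), fun v hv hF => ?_, fun h hh => ?_, fun h hh => ?_, h4⟩
  · refine h1 _ (ai_mem hv) fun p hp => ?_
    rw [mul_apply, mul_apply, hF _ (Finset.mem_image_of_mem _ hp), inv_apply]
  · have := h2 _ hh
    have e : (a⁻¹ * l * a) * (a⁻¹ * h * a) * (a⁻¹ * l * a)⁻¹ = a⁻¹ * (l * h * l⁻¹) * a := by group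
    rw [e] at this
    exact this
  · have := h3 _ hh
    have e : (a⁻¹ * l * a)⁻¹ * (a⁻¹ * h * a) * (a⁻¹ * l * a) = a⁻¹ * (l⁻¹ * h * l) * a := by group
    rw [e] at this
    exact this

/-- `h` has trivial slope, witnessed by `n` -/
def Triv (n : ℕ) (h : Equiv.Perm (List ℕ)) : Prop := ∃ v ∈ V, ∀ q, h (zs n ++ q) = zs n ++ v q

theorem Triv.mono {m n : ℕ} {h : Equiv.Perm (List ℕ)} (hn : Triv n h) (hmn : n ≤ m) :
    Triv m h := by
  obtain ⟨v, hv, e⟩ := hn
  obtain ⟨k, rfl⟩ := Nat.exists_eq_add_of_le hmn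
  obtain ⟨w, hw, e'⟩ := good_append_V hv (zs k)
  refine ⟨w, hw, fun q => ?_⟩
  rw [zs_add, List.append_assoc, e, e', V_zs hv, List.append_assoc]

theorem sep_slope {l : Equiv.Perm (List ℕ)} {m n : ℕ} (hmn : m ≠ n) {v : Equiv.Perm (List ℕ)}
    (hv : v ∈ V) (h : ∀ q, l (zs n ++ q) = zs m ++ v q) : Sep l := by
  let O : Subgroup (Equiv.Perm (List ℕ)) :=
    { carrier := {h | ∃ n, Triv n h}
      mul_mem' := by
        rintro x y ⟨n, hx⟩ ⟨m, hy⟩
        obtain ⟨v, hv, e⟩ := hx.mono (le_max_left n m)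
        obtain ⟨w, hw, e'⟩ := hy.mono (le_max_right n m)
        exact ⟨max n m, v * w, V.mul_mem hv hw, fun q => by
          rw [mul_apply, e', e, mul_apply]⟩
      one_mem' := ⟨0, 1, V.one_mem, fun q => rfl⟩
      inv_mem' := by
        rintro x ⟨n, v, hv, e⟩
        refine ⟨n, v⁻¹, V.inv_mem hv, fun q => ?_⟩
        have := e (v⁻¹ q)
        rw [apply_inv] at this
        rw [← this, inv_apply] }
  have key : ∀ (l : Equiv.Perm (List ℕ)) (m n : ℕ), (∃ v ∈ V, ∀ q, l (zs n ++ q) = zs m ++ v q) →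
      ∀ h ∈ O, l * h * l⁻¹ ∈ O := by
    rintro l m n ⟨v, hv, h⟩ k ⟨j, hk⟩
    obtain ⟨u, hu, e⟩ := hk.mono (Nat.le_add_left j n)
    -- on the cone of `0 ^ (n + j)`
    obtain ⟨w, hw, e'⟩ := good_append_V hv (zs j)
    have h2 : ∀ q, l (zs (n + j) ++ q) = zs (m + j) ++ w q := by
      intro q
      rw [zs_add, List.append_assoc, h, e', V_zs hv, zs_add, List.append_assoc]
    have h3 : ∀ q, l⁻¹ (zs (m + j) ++ q) = zs (n + j) ++ w⁻¹ q := by
      intro q
      have := h2 (w⁻¹ q)
      rw [apply_inv] at this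
      rw [← this, inv_apply]
    refine ⟨m + j, w * u * w⁻¹, V.mul_mem (V.mul_mem hw hu) (V.inv_mem hw), fun q => ?_⟩
    rw [mul_apply, mul_apply, h3, e, h2, mul_apply, mul_apply]
  refine ⟨O, ∅, fun v hv _ => ⟨0, v, hv, fun q => rfl⟩, key l m n ⟨v, hv, h⟩, fun k hk => ?_, ?_⟩
  · have h3 : ∀ q, l⁻¹ (zs m ++ q) = zs n ++ v⁻¹ q := by
      intro q
      have := h (v⁻¹ q)
      rw [apply_inv] at this
      rw [← this, inv_apply]
    have := key l⁻¹ n m ⟨v⁻¹, V.inv_mem hv, h3⟩ k hk
    rwa [inv_inv] at this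
  · rintro ⟨j, hj⟩
    obtain ⟨w, hw, e⟩ := hj.mono (Nat.le_add_left j n)
    have h1 := e []
    have h2 := h (zs j)
    rw [← zs_add, V_zs hv, ← zs_add] at h2
    rw [List.append_nil, h2, V_nil hw, List.append_nil] at h1
    have := zs_inj h1
    omega

end Pool.Agent.H335.TC
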