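import Pool.Graph.R_pool_sql_team_seeded_35f281b4.K7.H92.WF.Main

/-!
# An order relation on words preserved by the group `K`
-/

set_option autoImplicit false

namespace Pool.Agent.H335.TC

open Pool.Agent.K7.H92.WF Equiv.Perm

/-- all letters are `0` or `1` -/
def bin : List ℕ → Prop
  | [] => True
  | x :: q => x ≤ 1 ∧ bin q

/-- the order relation: `p` lies on the arc from the root end to `q` -/
def le : List ℕ → List ℕ → Prop
  | [], [] => True
  | [], y :: _ => y ≠ 0
  | x :: p, [] => x = 0 ∧ bin p
  | x :: p, y :: q => (x = y ∧ le p q) ∨ (x ≠ y ∧ x = 0 ∧ bin p)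

theorem bin_nil : bin [] ↔ True := Iff.rfl
theorem bin_cons (x : ℕ) (q : List ℕ) : bin (x :: q) ↔ (x ≤ 1 ∧ bin q) := Iff.rfl

theorem le_nil_nil : le [] [] ↔ True := Iff.rfl
theorem le_nil_cons (y : ℕ) (q : List ℕ) : le [] (y :: q) ↔ y ≠ 0 := Iff.rfl
theorem le_cons_nil (x : ℕ) (p : List ℕ) : le (x :: p) [] ↔ (x = 0 ∧ bin p) := Iff.rfl
theorem le_cons_cons (x y : ℕ) (p q : List ℕ) :
    le (x :: p) (y :: q) ↔ ((x = y ∧ le p q) ∨ (x ≠ y ∧ x = 0 ∧ bin p)) := Iff.rfl

/-- `l` preserves the relation `le` -/
def Pres (l : Equiv.Perm (List ℕ)) : Prop := ∀ p q, le (l p) (l q) ↔ le p q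

theorem Pres.one : Pres 1 := fun _ _ => Iff.rfl

theorem Pres.mul {k l : Equiv.Perm (List ℕ)} (hk : Pres k) (hl : Pres l) : Pres (k * l) :=
  fun p q => (hk (l p) (l q)).trans (hl p q)

theorem Pres.inv {k : Equiv.Perm (List ℕ)} (hk : Pres k) : Pres k⁻¹ := by
  intro p q
  have h := hk (k⁻¹ p) (k⁻¹ q)
  have e1 : k (k⁻¹ p) = p := k.apply_symm_apply p
  have e2 : k (k⁻¹ q) = q := k.apply_symm_apply q
  rw [e1, e2] at h
  exact h.symm

theorem Pres.cone {k : Equiv.Perm (List ℕ)} (hk : Pres k) {x : ℕ} (hx : x ≠ 0) :
    Pres (cone x k) := by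
  intro p q
  rcases p with _ | ⟨y, p⟩
  · rcases q with _ | ⟨z, q⟩
    · rw [cone_nil]
    · rw [cone_nil]
      by_cases hz : z = x
      · subst hz; rw [cone_same]; rfl
      · rw [cone_ne hz]
  · by_cases hy : y = x
    · subst hy
      rw [cone_same]
      rcases q with _ | ⟨z, q⟩
      · rw [cone_nil, le_cons_nil, le_cons_nil]; simp [hx]
      · by_cases hz : z = y
        · subst hz; rw [cone_same, le_cons_cons, le_cons_cons, hk]; simp
        · rw [cone_ne hz, le_cons_cons, le_cons_cons]; simp [hx, Ne.symm hz]
    · rw [cone_ne hy]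
      rcases q with _ | ⟨z, q⟩
      · rw [cone_nil]
      · by_cases hz : z = x
        · subst hz; rw [cone_same, le_cons_cons, le_cons_cons]; simp [hy]
        · rw [cone_ne hz]

theorem sw_ne_zero {r : ℕ} (hr : r < 3) {x : ℕ} (hx : x ≠ 0) : sw r x ≠ 0 := by
  intro h
  apply hx
  rw [← sw_sw hr x, h, sw_zero]

theorem sw_eq_iff {r : ℕ} (hr : r < 3) {x y : ℕ} : sw r x = sw r y ↔ x = y :=
  ⟨sw_inj hr, fun h => by rw [h]⟩

theorem sw_eq_zero_iff {r : ℕ} (hr : r < 3) {x : ℕ} : sw r x = 0 ↔ x = 0 :=
  ⟨fun h => by by_contra hx; exact sw_ne_zero hr hx h, fun h => by rw [h, sw_zero]⟩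

theorem Pres.g (r : Fin 3) : Pres (g r) := by
  intro p q
  rcases p with _ | ⟨y, p⟩
  · rcases q with _ | ⟨z, q⟩
    · rw [g_nil]
    · rw [g_nil, g_cons, le_nil_cons, le_nil_cons, not_iff_not, sw_eq_zero_iff r.2]
  · rcases q with _ | ⟨z, q⟩
    · rw [g_nil, g_cons, le_cons_nil, le_cons_nil, sw_eq_zero_iff r.2]
    · rw [g_cons, g_cons, le_cons_cons, le_cons_cons, sw_eq_zero_iff r.2, Ne, sw_eq_iff r.2]

theorem Pres.a : Pres a := by
  intro p q
  rcases p with _ | ⟨x, p⟩
  · rcases q with _ | ⟨y, q⟩
    · simp only [a_nil]; simp [le_cons_cons, le_nil_nil]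
    · rcases y with _ | _ | y
      · rw [a_nil, a_cons (by norm_num)]; simp [le_cons_cons, le_nil_cons]
      · rcases q with _ | ⟨z, q⟩
        · simp only [zero_add, a_nil, a_one]; simp [le_cons_nil, le_nil_cons, bin_nil]
        · rcases z with _ | z
          · simp only [zero_add, a_nil, a_one_zero]; simp [le_cons_cons, le_nil_cons]
          · rw [a_nil, a_one_cons (by norm_num)]; simp [le_cons_cons, le_nil_cons, bin_nil]
      · rw [a_nil, a_cons (by omega)]; simp [le_cons_cons, le_nil_cons]
  · rcases x with _ | _ | x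
    · rw [a_cons (by norm_num)]
      rcases q with _ | ⟨y, q⟩
      · simp [a_nil, le_cons_cons, le_cons_nil]
      · rcases y with _ | _ | y
        · rw [a_cons (by norm_num)]; simp [le_cons_cons]
        · rcases q with _ | ⟨z, q⟩
          · simp only [zero_add, a_one]; simp [le_cons_nil, le_cons_cons, bin_cons]
          · rcases z with _ | z
            · simp only [zero_add, a_one_zero]; simp [le_cons_cons]
            · rw [a_one_cons (by norm_num)]; simp [le_cons_cons, bin_cons]
        · rw [a_cons (by omega)]; simp [le_cons_cons]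
    · rcases p with _ | ⟨w, p⟩
      · simp only [zero_add, a_one]
        rcases q with _ | ⟨y, q⟩
        · simp [a_nil, le_cons_nil, le_nil_cons]
        · rcases y with _ | _ | y
          · rw [a_cons (by norm_num)]; simp [le_cons_cons, le_nil_cons]
          · rcases q with _ | ⟨z, q⟩
            · simp [a_one, le_nil_nil, le_cons_cons]
            · rcases z with _ | z
              · simp only [zero_add, a_one_zero]; simp [le_cons_cons, le_nil_cons]
              · rw [a_one_cons (by norm_num)]; simp [le_cons_cons, le_nil_cons]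
          · rw [a_cons (by omega)]; simp [le_cons_cons, le_nil_cons]
      · rcases w with _ | w
        · simp only [zero_add, a_one_zero]
          rcases q with _ | ⟨y, q⟩
          · simp [a_nil, le_cons_nil, le_cons_cons]
          · rcases y with _ | _ | y
            · rw [a_cons (by norm_num)]; simp [le_cons_cons]
            · rcases q with _ | ⟨z, q⟩
              · simp [a_one, le_cons_nil, le_cons_cons, bin_cons]
              · rcases z with _ | z
                · simp only [zero_add, a_one_zero]; simp [le_cons_cons]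
                · rw [a_one_cons (by norm_num)]; simp [le_cons_cons, bin_cons]
            · rw [a_cons (by omega)]; simp [le_cons_cons]
        · rw [a_one_cons (by norm_num)]
          rcases q with _ | ⟨y, q⟩
          · simp [a_nil, le_cons_nil, le_cons_cons]
          · rcases y with _ | _ | y
            · rw [a_cons (by norm_num)]; simp [le_cons_cons]
            · rcases q with _ | ⟨z, q⟩
              · simp [a_one, le_cons_nil, le_cons_cons]
              · rcases z with _ | z
                · simp only [zero_add, a_one_zero]; simp [le_cons_cons]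
                · rw [a_one_cons (by norm_num)]; simp [le_cons_cons]
            · rw [a_cons (by omega)]; simp [le_cons_cons]
    · rw [a_cons (by omega)]
      rcases q with _ | ⟨y, q⟩
      · simp [a_nil, le_cons_nil, le_cons_cons]
      · rcases y with _ | _ | y
        · rw [a_cons (by norm_num)]; simp [le_cons_cons]
        · rcases q with _ | ⟨z, q⟩
          · simp [a_one, le_cons_nil, le_cons_cons, bin_cons]
          · rcases z with _ | z
            · simp only [zero_add, a_one_zero]; simp [le_cons_cons]
            · rw [a_one_cons (by norm_num)]; simp [le_cons_cons, bin_cons]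
        · rw [a_cons (by omega)]; simp [le_cons_cons]

theorem Pres.t : Pres t := by
  have hA := Pres.a
  have hB := Pres.a.inv
  intro p q
  rcases p with _ | ⟨x, p⟩
  · rcases q with _ | ⟨y, q⟩
    · rw [t_nil]
    · by_cases h1 : y = 1
      · subst h1; rw [t_nil, t_one]; simp [le_nil_cons]
      · by_cases h2 : y = 2
        · subst h2; rw [t_nil, t_two]; simp [le_nil_cons]
        · rw [t_nil, t_cons h1 h2, le_nil_cons, le_nil_cons, not_iff_not,
            sw_eq_zero_iff (by norm_num)]
  · rcases q with _ | ⟨y, q⟩
    · by_cases h1 : x = 1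
      · subst h1; rw [t_nil, t_one]; simp [le_cons_nil]
      · by_cases h2 : x = 2
        · subst h2; rw [t_nil, t_two]; simp [le_cons_nil]
        · rw [t_nil, t_cons h1 h2, le_cons_nil, le_cons_nil, sw_eq_zero_iff (by norm_num)]
    · by_cases h1 : x = 1
      · subst h1
        by_cases k1 : y = 1
        · subst k1; rw [t_one, t_one, le_cons_cons, le_cons_cons, hA]; simp
        · by_cases k2 : y = 2
          · subst k2; rw [t_one, t_two, le_cons_cons, le_cons_cons]; simp
          · rw [t_one, t_cons k1 k2, le_cons_cons, le_cons_cons]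
            have : (2 : ℕ) ≠ sw 1 y := by
              intro h
              exact k1 (sw_inj (by norm_num) (h.symm.trans sw1_one.symm))
            simp [this, Ne.symm k1]
      · by_cases h2 : x = 2
        · subst h2
          by_cases k1 : y = 1
          · subst k1; rw [t_one, t_two, le_cons_cons, le_cons_cons]; simp
          · by_cases k2 : y = 2
            · subst k2; rw [t_two, t_two, le_cons_cons, le_cons_cons, hB]; simp
            · rw [t_two, t_cons k1 k2, le_cons_cons, le_cons_cons]
              have : (1 : ℕ) ≠ sw 1 y := by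
                intro h
                exact k2 (sw_inj (by norm_num) (h.symm.trans sw1_two.symm))
              simp [this, Ne.symm k2]
        · have e1 : sw 1 x ≠ 1 := fun h => h2 (sw_inj (by norm_num) (h.trans sw1_two.symm))
          have e2 : sw 1 x ≠ 2 := fun h => h1 (sw_inj (by norm_num) (h.trans sw1_one.symm))
          by_cases k1 : y = 1
          · subst k1
            rw [t_one, t_cons h1 h2, le_cons_cons, le_cons_cons, sw_eq_zero_iff (by norm_num)]
            simp [e2, h1]
          · by_cases k2 : y = 2
            · subst k2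
              rw [t_two, t_cons h1 h2, le_cons_cons, le_cons_cons, sw_eq_zero_iff (by norm_num)]
              simp [e1, h2]
            · rw [t_cons h1 h2, t_cons k1 k2, le_cons_cons, le_cons_cons,
                sw_eq_zero_iff (by norm_num), Ne, sw_eq_iff (by norm_num)]

theorem flip_eq_zero {e : Bool} {x : ℕ} : flip e x = 0 ↔ x = 0 := by
  constructor
  · intro h
    rw [← flip_zero e] at h
    exact flip_inj h
  · rintro rfl; exact flip_zero e

theorem flip_eq_one {e : Bool} {x : ℕ} : flip e x = 1 ↔ x = 1 := by
  constructor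
  · intro h
    rw [← flip_one e] at h
    exact flip_inj h
  · rintro rfl; exact flip_one e

theorem flip_eq_flip {e : Bool} {x y : ℕ} : flip e x = flip e y ↔ x = y :=
  ⟨flip_inj, fun h => by rw [h]⟩

theorem flip_le_one {e : Bool} {x : ℕ} : flip e x ≤ 1 ↔ x ≤ 1 := by
  have h : ∀ y : ℕ, y ≤ 1 ↔ (y = 0 ∨ y = 1) := fun y => by omega
  rw [h, h, flip_eq_zero, flip_eq_one]

theorem bin_act (φ : List ℕ → Bool) (p : List ℕ) : bin (act φ p) ↔ bin p := by
  induction p generalizing φ with
  | nil => rfl
  | cons x q ih => rw [act_cons, bin_cons, bin_cons, ih, flip_le_one]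

theorem act_bin (φ : List ℕ → Bool) {p : List ℕ} (hp : bin p) : act φ p = p := by
  induction p generalizing φ with
  | nil => rfl
  | cons x q ih =>
    rw [act_cons, ih _ hp.2]
    congr 1
    have h : x = 0 ∨ x = 1 := by have := hp.1; omega
    rcases h with rfl | rfl
    · exact flip_zero _
    · exact flip_one _

theorem Pres.act (φ : List ℕ → Bool) : Pres (act φ) := by
  intro p q
  induction p generalizing φ q with
  | nil =>
    rcases q with _ | ⟨y, q⟩
    · rfl
    · rw [act_nil, act_cons, le_nil_cons, le_nil_cons, not_iff_not, flip_eq_zero]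
  | cons x p ih =>
    rcases q with _ | ⟨y, q⟩
    · rw [act_nil, act_cons, le_cons_nil, le_cons_nil, flip_eq_zero, bin_act]
    · rw [act_cons, act_cons, le_cons_cons, le_cons_cons, flip_eq_zero, Ne, flip_eq_flip,
        bin_act]
      by_cases hxy : x = y
      · subst hxy
        rw [ih]
      · simp [hxy]

theorem Pres.ofV {v : Equiv.Perm (List ℕ)} (hv : v ∈ V) : Pres v := by
  obtain ⟨φ, rfl⟩ := hv
  exact Pres.act φ

/-! ### Basic facts about the order -/

/-- the word consisting of `n` zeros -/
def zs (n : ℕ) : List ℕ := List.replicate n 0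

theorem zs_zero : zs 0 = [] := rfl
theorem zs_succ (n : ℕ) : zs (n + 1) = 0 :: zs n := rfl
theorem zs_add (m n : ℕ) : zs (m + n) = zs m ++ zs n := List.replicate_add ..
theorem zs_length (n : ℕ) : (zs n).length = n := List.length_replicate
theorem zs_inj {m n : ℕ} (h : zs m = zs n) : m = n := by
  have := congrArg List.length h
  rwa [zs_length, zs_length] at this

theorem bin_zs (n : ℕ) : bin (zs n) := by
  induction n with
  | zero => trivial
  | succ n ih => exact ⟨by norm_num, ih⟩

theorem V_zs {v : Equiv.Perm (List ℕ)} (hv : v ∈ V) (n : ℕ) : v (zs n) = zs n := by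
  obtain ⟨φ, rfl⟩ := hv
  exact act_bin φ (bin_zs n)

/-- `0 ^ n` is below every word of length at most `n`. -/
theorem zs_le {p : List ℕ} {n : ℕ} (h : p.length ≤ n) : le (zs n) p := by
  induction p generalizing n with
  | nil =>
    rcases n with _ | n
    · trivial
    · exact ⟨rfl, bin_zs n⟩
  | cons x p ih =>
    rcases n with _ | n
    · simp at h
    · rw [zs_succ, le_cons_cons]
      by_cases hx : 0 = x
      · exact Or.inl ⟨hx, ih (by simpa using h)⟩
      · exact Or.inr ⟨hx, rfl, bin_zs n⟩

/-- A word below a long word of zeros is a word of zeros. -/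
theorem eq_zs_of_le {p : List ℕ} {i s : ℕ} (hs : p.length ≤ s) (h : le (p ++ zs i) (zs s)) :
    p = zs p.length := by
  induction p generalizing s with
  | nil => rfl
  | cons x p ih =>
    rcases s with _ | s
    · simp at hs
    · rw [List.cons_append, zs_succ, le_cons_cons] at h
      rcases h with ⟨hx, h⟩ | ⟨hx, h, -⟩
      · rw [List.length_cons, zs_succ, ← ih (by simpa using hs) h, hx]
      · exact absurd h hx

end Pool.Agent.H335.TC
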