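import Pool.Agent.H335.TC.Good

/-!
# Every nontrivial element of `K` is separated from an open subgroup it normalises
-/

set_option autoImplicit false

namespace Pool.Agent.H335.TC

open Pool.Agent.K7.H92.WF Equiv.Perm

/-- `l` preserves every cone of a letter, with sections `s` -/
def Secs (l : Equiv.Perm (List ℕ)) (s : ℕ → Equiv.Perm (List ℕ)) : Prop :=
  l [] = [] ∧ ∀ x q, l (x :: q) = x :: s x q

theorem Secs.mul {k l : Equiv.Perm (List ℕ)} {s r : ℕ → Equiv.Perm (List ℕ)} (hk : Secs k s)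
    (hl : Secs l r) : Secs (k * l) (fun x => s x * r x) :=
  ⟨by rw [mul_apply, hl.1, hk.1], fun x q => by rw [mul_apply, hl.2, hk.2, mul_apply]⟩

theorem Secs.inv {k : Equiv.Perm (List ℕ)} {s : ℕ → Equiv.Perm (List ℕ)} (hk : Secs k s) :
    Secs k⁻¹ (fun x => (s x)⁻¹) := by
  refine ⟨?_, fun x q => ?_⟩
  · conv_lhs => rw [← hk.1]
    exact inv_apply _
  · have := hk.2 x ((s x)⁻¹ q)
    rw [apply_inv] at this
    rw [← this, inv_apply]

theorem Secs.unique {k : Equiv.Perm (List ℕ)} {s r : ℕ → Equiv.Perm (List ℕ)} (hk : Secs k s)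
    (hk' : Secs k r) (x : ℕ) : s x = r x := by
  ext q : 1
  have h := hk.2 x q
  rw [hk'.2] at h
  exact (List.cons.inj h).2.symm

theorem sep_sec {l : Equiv.Perm (List ℕ)} {s : ℕ → Equiv.Perm (List ℕ)} (hl : Secs l s) {x : ℕ}
    (hx : Sep (s x)) : Sep l := by
  classical
  obtain ⟨O', F, h1, h2, h3, h4⟩ := hx
  let O : Subgroup (Equiv.Perm (List ℕ)) :=
    { carrier := {h | ∃ r, Secs h r ∧ r x ∈ O'}
      mul_mem' := by
        rintro y z ⟨r, hy, hy'⟩ ⟨r', hz, hz'⟩
        exact ⟨_, hy.mul hz, O'.mul_mem hy' hz'⟩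
      one_mem' := ⟨fun _ => 1, ⟨rfl, fun _ _ => rfl⟩, O'.one_mem⟩
      inv_mem' := by
        rintro y ⟨r, hy, hy'⟩
        exact ⟨_, hy.inv, O'.inv_mem hy'⟩ }
  refine ⟨O, insert [3] (F.image fun p => x :: p), fun v hv hF => ?_, fun h hh => ?_,
    fun h hh => ?_, ?_⟩
  · obtain ⟨w, hw, e⟩ := V_root hv (hF [3] (Finset.mem_insert_self _ _))
    refine ⟨w, ⟨V_nil hv, e⟩, h1 _ (hw x) fun p hp => ?_⟩
    have := hF (x :: p) (Finset.mem_insert_of_mem (Finset.mem_image_of_mem _ hp))
    rw [e] at this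
    exact (List.cons.inj this).2
  · obtain ⟨r, hr, hr'⟩ := hh
    exact ⟨_, (hl.mul hr).mul hl.inv, h2 _ hr'⟩
  · obtain ⟨r, hr, hr'⟩ := hh
    exact ⟨_, (hl.inv.mul hr).mul hl, h3 _ hr'⟩
  · rintro ⟨r, hr, hr'⟩
    rw [hr.unique hl x] at hr'
    exact h4 hr'

/-- `l` fixes the empty word and permutes the cones of the letters -/
def Hd (l : Equiv.Perm (List ℕ)) : Prop :=
  l [] = [] ∧ ∀ x, ∃ y, ∀ q, ∃ q', l (x :: q) = y :: q'

/-- the group of permutations preserving every cone -/
def Hp : Subgroup (Equiv.Perm (List ℕ)) where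
  carrier := {h | h [] = [] ∧ ∀ x q, ∃ q', h (x :: q) = x :: q'}
  mul_mem' := by
    rintro y z ⟨hy, hy'⟩ ⟨hz, hz'⟩
    refine ⟨by rw [mul_apply, hz, hy], fun x q => ?_⟩
    obtain ⟨q', e⟩ := hz' x q
    obtain ⟨q'', e'⟩ := hy' x q'
    exact ⟨q'', by rw [mul_apply, e, e']⟩
  one_mem' := ⟨rfl, fun x q => ⟨q, rfl⟩⟩
  inv_mem' := by
    rintro y ⟨hy, hy'⟩
    refine ⟨?_, fun x q => ?_⟩
    · conv_lhs => rw [← hy]
      exact inv_apply _
    · rcases e : y⁻¹ (x :: q) with _ | ⟨z, r⟩
      · have h := apply_inv (l := y) (x :: q)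
        rw [e, hy] at h
        exact absurd h (by simp)
      · obtain ⟨r', e'⟩ := hy' z r
        have h := apply_inv (l := y) (x :: q)
        rw [e, e'] at h
        exact ⟨r, by rw [(List.cons.inj h).1]⟩

theorem Hp_conj {l : Equiv.Perm (List ℕ)} (h1 : Hd l) (h2 : Hd l⁻¹) {h : Equiv.Perm (List ℕ)}
    (hh : h ∈ Hp) : l * h * l⁻¹ ∈ Hp := by
  refine ⟨by rw [mul_apply, mul_apply, h2.1, hh.1, h1.1], fun x q => ?_⟩
  obtain ⟨y, hy⟩ := h2.2 x
  obtain ⟨r, hr⟩ := hy q
  obtain ⟨r', hr'⟩ := hh.2 y r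
  obtain ⟨z, hz⟩ := h1.2 y
  obtain ⟨r'', hr''⟩ := hz r'
  obtain ⟨q'', hq''⟩ := hz r
  have h3 := apply_inv (l := l) (x :: q)
  rw [hr, hq''] at h3
  refine ⟨r'', ?_⟩
  rw [mul_apply, mul_apply, hr, hr', hr'', (List.cons.inj h3).1]

theorem sep_Hp {l : Equiv.Perm (List ℕ)} (h1 : Hd l) (h2 : Hd l⁻¹) (h : l ∉ Hp) : Sep l := by
  refine ⟨Hp, {[3]}, fun v hv hF => ?_, fun k hk => Hp_conj h1 h2 hk, fun k hk => ?_, h⟩
  · obtain ⟨w, hw, e⟩ := V_root hv (hF [3] (Finset.mem_singleton_self _))
    exact ⟨V_nil hv, fun x q => ⟨_, e x q⟩⟩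
  · have := Hp_conj h2 (by rwa [inv_inv]) hk
    rwa [inv_inv] at this

/-- `l` acts on the cone of `0` as an element of `V` -/
theorem Triv_one_iff {l : Equiv.Perm (List ℕ)} :
    Triv 1 l ↔ ∃ v ∈ V, ∀ q, l (0 :: q) = 0 :: v q := Iff.rfl

theorem Triv.inv {n : ℕ} {l : Equiv.Perm (List ℕ)} (h : Triv n l) : Triv n l⁻¹ := by
  obtain ⟨v, hv, e⟩ := h
  refine ⟨v⁻¹, V.inv_mem hv, fun q => ?_⟩
  have := e (v⁻¹ q)
  rw [apply_inv] at this
  rw [← this, inv_apply]

theorem hd_of_triv {l : Equiv.Perm (List ℕ)} (hl : Pres l) (h0 : Triv 1 l) : Hd l := by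
  -- words outside the cone of `0` are mapped outside the cone of `0`
  have hU : ∀ k : Equiv.Perm (List ℕ), Triv 1 k → ∀ p, (∀ q, p ≠ 0 :: q) →
      ∀ q, k p ≠ 0 :: q := by
    intro k hk p hp q h
    obtain ⟨v, -, e⟩ := Triv_one_iff.1 hk.inv
    have := e q
    rw [← h, inv_apply] at this
    exact hp _ this
  have hnil : l [] = [] := by
    have h1 : ∀ q, l⁻¹ [] ≠ 0 :: q := hU _ h0.inv [] (by simp)
    have h2 : le [] (l⁻¹ []) := by
      rcases e : l⁻¹ [] with _ | ⟨x, q⟩
      · trivial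
      · rw [le_nil_cons]
        rintro rfl
        exact h1 q e
    rw [← hl, apply_inv] at h2
    rcases e : l [] with _ | ⟨x, q⟩
    · rfl
    · rw [e] at h2
      have := h2.1
      subst this
      exact absurd e (hU _ h0 [] (by simp) q)
  refine ⟨hnil, fun x => ?_⟩
  by_cases hx : x = 0
  · subst hx
    obtain ⟨v, -, e⟩ := Triv_one_iff.1 h0
    exact ⟨0, fun q => ⟨_, e q⟩⟩
  · have key : ∀ q n, q.length ≤ n → ∃ y q' r, l (x :: q) = y :: q' ∧ l (x :: zs n) = y :: r := by
      intro q n hn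
      have h1 : le (x :: zs n) (x :: q) := by
        rw [le_cons_cons]
        exact Or.inl ⟨rfl, zs_le hn⟩
      rw [← hl] at h1
      rcases e : l (x :: zs n) with _ | ⟨y, r⟩
      · rw [← hnil] at e
        exact absurd (l.injective e) (by simp)
      · have hy : y ≠ 0 := by
          rintro rfl
          exact hU l h0 (x :: zs n) (by simp [hx]) r e
        rw [e] at h1
        rcases e' : l (x :: q) with _ | ⟨z, q'⟩
        · rw [e'] at h1
          exact absurd h1.1 hy
        · rw [e', le_cons_cons] at h1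
          rcases h1 with ⟨h1, -⟩ | ⟨-, h1, -⟩
          · subst h1
            exact ⟨y, q', r, rfl, rfl⟩
          · exact absurd h1 hy
    obtain ⟨y, q', r, h1, -⟩ := key [] 0 le_rfl
    refine ⟨y, fun q => ?_⟩
    obtain ⟨y', q'', r', h2, h3⟩ := key q q.length le_rfl
    obtain ⟨y'', q3, r3, h4, h5⟩ := key [] q.length (Nat.zero_le _)
    rw [h1] at h4
    rw [h3] at h5
    have e1 : y' = y'' := (List.cons.inj h5).1
    have e2 : y = y'' := (List.cons.inj h4).1
    exact ⟨q'', by rw [h2, e1, e2]⟩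

/-- The sections of a permutation preserving every cone. -/
theorem exists_secs {l : Equiv.Perm (List ℕ)} (hl : l ∈ Hp) : ∃ s, Secs l s := by
  have hl' := Hp.inv_mem hl
  have e : ∀ k ∈ Hp, ∀ x q, k (x :: q) = x :: (k (x :: q)).tail := by
    rintro k ⟨-, h⟩ x q
    obtain ⟨q', h⟩ := h x q
    rw [h, List.tail_cons]
  refine ⟨fun x => ⟨fun q => (l (x :: q)).tail, fun q => (l⁻¹ (x :: q)).tail, fun q => ?_,
    fun q => ?_⟩, hl.1, fun x q => e l hl x q⟩
  · change (l⁻¹ (x :: (l (x :: q)).tail)).tail = q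
    rw [← e l hl, inv_apply, List.tail_cons]
  · change (l (x :: (l⁻¹ (x :: q)).tail)).tail = q
    rw [← e _ hl', apply_inv, List.tail_cons]

theorem Secs.pres {l : Equiv.Perm (List ℕ)} {s : ℕ → Equiv.Perm (List ℕ)} (h : Secs l s)
    (hl : Pres l) (x : ℕ) : Pres (s x) := by
  intro p q
  have h1 := hl (x :: p) (x :: q)
  rw [h.2, h.2, le_cons_cons, le_cons_cons] at h1
  simpa using h1

theorem Secs.good {l : Equiv.Perm (List ℕ)} {s : ℕ → Equiv.Perm (List ℕ)} (h : Secs l s)
    (x : ℕ) (p : List ℕ) : good (s x) p ↔ good l (x :: p) := by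
  constructor
  · rintro ⟨v, hv, e⟩
    refine ⟨v, hv, fun q => ?_⟩
    rw [List.cons_append, h.2, h.2, e, List.cons_append]
  · rintro ⟨v, hv, e⟩
    refine ⟨v, hv, fun q => ?_⟩
    have := e q
    rw [List.cons_append, h.2, h.2, List.cons_append] at this
    exact (List.cons.inj this).2

theorem Secs.inL {l : Equiv.Perm (List ℕ)} {s : ℕ → Equiv.Perm (List ℕ)} (h : Secs l s)
    (hl : InL l) (x : ℕ) : InL (s x) where
  pres := h.pres hl.pres x
  fin := by
    refine (hl.fin.preimage (f := fun p => x :: p) fun p _ q _ hpq => (List.cons.inj hpq).2).subset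
      fun p hp hp' => hp ((h.good x p).2 hp')

theorem Secs.card {l : Equiv.Perm (List ℕ)} {s : ℕ → Equiv.Perm (List ℕ)} (h : Secs l s)
    (hl : InL l) (hV : l ∉ V) (x : ℕ) : (I (s x)).ncard < (I l).ncard := by
  have h1 : (I (s x)).ncard = ((fun p => x :: p) '' I (s x)).ncard :=
    (Set.ncard_image_of_injective _ fun p q hpq => (List.cons.inj hpq).2).symm
  rw [h1]
  apply Set.ncard_lt_ncard _ hl.fin
  refine ⟨?_, fun h2 => ?_⟩
  · rintro _ ⟨p, hp, rfl⟩ hp'
    exact hp ((h.good x p).2 hp')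
  · have : ([] : List ℕ) ∈ I l := fun h => hV (good_nil_iff.1 h)
    obtain ⟨p, -, hp⟩ := h2 this
    exact absurd hp (by simp)

/-- Conjugation by `a` of elements with trivial slope. -/
theorem I_conj {l : Equiv.Perm (List ℕ)} {n : ℕ} (hn : Triv n l) :
    I (a⁻¹ * l * a) ⊆ {[], [1]} ∪ a ⁻¹' (I l \ {[], [0]}) := by
  intro p hp
  by_contra h
  apply hp
  rw [Set.mem_union, not_or, Set.mem_preimage, Set.mem_sdiff, not_and_or, not_not,
    not_mem_I] at h
  obtain ⟨h1, h2⟩ := h
  simp only [Set.mem_insert_iff, Set.mem_singleton_iff, not_or] at h1 h2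
  have e1 : a p ≠ [] := by
    intro e
    apply h1.2
    have := inv_apply (l := a) p
    rw [e] at this
    exact this.symm.trans ai_nil
  have e2 : a p ≠ [0] := by
    intro e
    apply h1.1
    have := inv_apply (l := a) p
    rw [e] at this
    exact this.symm.trans ai_zero
  have h3 : good l (a p) := by
    rcases h2 with h2 | h2
    · exact h2
    · rcases h2 with h2 | h2
      · exact absurd h2 e1
      · exact absurd h2 e2
  have h4 : good a p := good_of_one (good_a h1.1 h1.2)
  have h5 : good (l * a) p := good_mul h4 h3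
  rw [mul_assoc]
  refine good_mul h5 ?_
  rw [mul_apply]
  obtain ⟨v, hv, e⟩ := h3
  refine good_of_one (good_ai ?_ ?_)
  · intro e0
    apply e1
    have h6 := e (v⁻¹ (l⁻¹ []).tail)
    have h7 : l⁻¹ [] = a p := by rw [← e0, inv_apply]
    -- `l` is given by `v` on the cone of `a p`, so `a p` is empty
    have h8 : ∀ q, l (a p ++ q) = v q := fun q => by rw [e, e0, List.nil_append]
    have h9 : a p ++ v⁻¹ [] = l⁻¹ [] := by
      rw [Equiv.Perm.eq_inv_iff_eq, h8, apply_inv]
    have h10 : ∀ r, ∃ q, r = a p ++ q := by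
      intro r
      refine ⟨v⁻¹ (l r), ?_⟩
      apply l.injective
      rw [h8, apply_inv]
    obtain ⟨q, hq⟩ := h10 []
    have := congrArg List.length hq
    rw [List.length_append] at this
    exact List.length_eq_zero_iff.1 (by simp at this; omega)
  · intro e0
    apply e2
    -- `l` maps the cone of `a p` onto the cone of `0`
    obtain ⟨w, hw, e'⟩ := hn.inv.mono (Nat.le_succ n)
    have h8 : ∀ q, l (a p ++ q) = 0 :: v q := fun q => by rw [e, e0]; rfl
    have h9 : l⁻¹ (zs (n + 1)) = zs (n + 1) := by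
      have := e' []
      rwa [List.append_nil, V_nil hw, List.append_nil] at this
    have h10 : a p ++ zs n = zs (n + 1) := by
      rw [← h9]
      rw [Equiv.Perm.eq_inv_iff_eq, h8, V_zs hv, zs_succ]
    have h11 : (a p).length = 1 := by
      have := congrArg List.length h10
      rw [List.length_append, zs_length, zs_length] at this
      omega
    obtain ⟨y, hy⟩ := List.length_eq_one_iff.1 h11
    rw [hy, zs_succ] at h10
    rw [hy, (List.cons.inj h10).1]

theorem card_conj {l : Equiv.Perm (List ℕ)} (hl : InL l) {n : ℕ} (hn : Triv n l)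
    (h0 : ¬ good l [0]) : (I (a⁻¹ * l * a)).ncard ≤ (I l).ncard := by
  have hnil : ([] : List ℕ) ∈ I l := fun h => h0 (good_append h [0])
  have h1 : (I (a⁻¹ * l * a)).ncard ≤ ({[], [1]} ∪ a ⁻¹' (I l \ {[], [0]}) : Set (List ℕ)).ncard := by
    exact Set.ncard_le_ncard (I_conj hn)
      ((Set.toFinite _).union ((hl.fin.subset Set.sdiff_subset).preimage a.injective.injOn))
  have h2 : ({[], [1]} ∪ a ⁻¹' (I l \ {[], [0]}) : Set (List ℕ)).ncard ≤
      ({[], [1]} : Set (List ℕ)).ncard + (a ⁻¹' (I l \ {[], [0]})).ncard := Set.ncard_union_le _ _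
  have h3 : ({[], [1]} : Set (List ℕ)).ncard ≤ 2 := by
    rw [Set.ncard_pair (by simp)]
  have h4 : (a ⁻¹' (I l \ {[], [0]})).ncard = (I l \ {[], [0]}).ncard := by
    rw [← Set.ncard_image_of_injective (a ⁻¹' (I l \ {[], [0]})) a.injective,
      Set.image_preimage_eq _ a.surjective]
  have h5 : (I l \ {[], [0]}).ncard = (I l).ncard - 2 := by
    rw [Set.ncard_sdiff (by
      intro x hx
      simp only [Set.mem_insert_iff, Set.mem_singleton_iff] at hx
      rcases hx with rfl | rfl
      · exact hnil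
      · exact h0) (Set.toFinite _), Set.ncard_pair (by simp)]
  have h6 : 2 ≤ (I l).ncard := by
    rw [← Set.ncard_pair (a := ([] : List ℕ)) (b := [0]) (by simp)]
    apply Set.ncard_le_ncard _ hl.fin
    intro x hx
    simp only [Set.mem_insert_iff, Set.mem_singleton_iff] at hx
    rcases hx with rfl | rfl
    · exact hnil
    · exact h0
  omega

theorem inL_conj_a {l : Equiv.Perm (List ℕ)} (hl : InL l) : InL (a⁻¹ * l * a) :=
  (InL.a.inv.mul hl).mul InL.a

theorem Triv.conj_a {l : Equiv.Perm (List ℕ)} {n : ℕ} (hn : Triv (n + 2) l) :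
    Triv (n + 1) (a⁻¹ * l * a) := by
  obtain ⟨v, hv, e⟩ := hn
  refine ⟨v, hv, fun q => ?_⟩
  rw [mul_apply, mul_apply]
  have h1 : a (zs (n + 1) ++ q) = zs (n + 2) ++ q := by
    rw [zs_succ, List.cons_append, a_cons (by norm_num), zs_succ, zs_succ]
    rfl
  rw [h1, e]
  have h2 : a (zs (n + 1) ++ v q) = zs (n + 2) ++ v q := by
    rw [zs_succ, List.cons_append, a_cons (by norm_num), zs_succ, zs_succ]
    rfl
  rw [← h2, inv_apply]

theorem sep_step (n : ℕ) (ih : ∀ l, InL l → l ≠ 1 → (I l).ncard < n → Sep l) (j : ℕ) :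
    ∀ l, InL l → l ≠ 1 → (I l).ncard ≤ n → Triv j l → Sep l := by
  induction j using Nat.strong_induction_on with
  | _ j ihj =>
    intro l hl h1 hn hj
    by_cases hV : l ∈ V
    · exact sep_V hV h1
    by_cases h0 : good l [0]
    · -- `l` acts on the cone of `0` as an element of `V`
      have hT : Triv 1 l := by
        obtain ⟨m, v, hv, e⟩ := slope hl.pres (n := 1) h0
        -- `m = 1`
        obtain ⟨w, hw, e'⟩ := hj.mono (Nat.le_succ j)
        have h2 := e (zs j)
        have h3 := e' []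
        rw [V_zs hv, ← zs_add, ← zs_add] at h2
        rw [V_nil hw, List.append_nil] at h3
        rw [show 1 + j = j.succ by omega, h3] at h2
        have h4 := zs_inj h2
        have h5 : m = 1 := by omega
        rw [h5] at e
        exact ⟨v, hv, e⟩
      have hH := hd_of_triv hl.pres hT
      have hH' := hd_of_triv hl.pres.inv hT.inv
      by_cases hp : l ∈ Hp
      · obtain ⟨s, hs⟩ := exists_secs hp
        have h2 : ∃ x, s x ≠ 1 := by
          by_contra h
          push Not at h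
          apply h1
          ext p : 1
          rcases p with _ | ⟨x, q⟩
          · exact hs.1
          · rw [hs.2, h]; rfl
        obtain ⟨x, hx⟩ := h2
        exact sep_sec hs (ih _ (hs.inL hl x) hx ((hs.card hl hV x).trans_le hn))
      · exact sep_Hp hH hH' hp
    · rcases j with _ | _ | j
      · exfalso
        apply h0
        obtain ⟨v, hv, e⟩ := hj
        have : l = v := by ext q : 1; exact e q
        rw [this]
        exact good_of_V hv _
      · exfalso
        apply h0
        obtain ⟨v, hv, e⟩ := hj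
        refine ⟨v, hv, fun q => ?_⟩
        have h2 := e []
        rw [List.append_nil, V_nil hv, List.append_nil] at h2
        have h3 : l [0] = [0] := h2
        rw [h3]
        exact e q
      · apply sep_conj_a
        refine ihj (j + 1) (by omega) _ (inL_conj_a hl) ?_ ((card_conj hl hj h0).trans hn) hj.conj_a
        intro h
        apply h1
        calc l = a * (a⁻¹ * l * a) * a⁻¹ := by group
          _ = 1 := by rw [h]; group

theorem sep_all (n : ℕ) : ∀ l, InL l → l ≠ 1 → (I l).ncard ≤ n → Sep l := by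
  induction n using Nat.strong_induction_on with
  | _ n ih =>
    intro l hl h1 hn
    -- a good word of zeros
    have hg : ∃ j, good l (zs j) := by
      by_contra h
      push Not at h
      have h2 : (Set.range zs).Finite := hl.fin.subset (by rintro _ ⟨j, rfl⟩; exact h j)
      exact Set.infinite_range_of_injective (fun _ _ => zs_inj) h2
    obtain ⟨j, hj⟩ := hg
    obtain ⟨m, v, hv, e⟩ := slope hl.pres hj
    by_cases hmj : m = j
    · subst hmj
      exact sep_step n (fun l hl h1 hlt => ih _ hlt l hl h1 le_rfl) m l hl h1 hn ⟨v, hv, e⟩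
    · exact sep_slope hmj hv e

/-- Every nontrivial element of `K` normalises an open subgroup that does not contain it. -/
theorem exists_open (g : K) (hg : g ≠ 1) : ∃ O : Subgroup K, IsOpen (O : Set K) ∧
    (∀ h, h ∈ O ↔ g * h * g⁻¹ ∈ O) ∧ g ∉ O := by
  have h1 : toP g ≠ 1 := by
    intro h
    apply hg
    apply toP_inj
    rw [h, map_one]
  obtain ⟨O, F, hF, h2, h3, h4⟩ := sep_all _ (toP g) (InL.ofK (toP_mem g)) h1 le_rfl
  refine ⟨O.comap toP, ?_, fun h => ?_, h4⟩
  · apply Subgroup.isOpen_of_mem_nhds _ (g := 1)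
    exact Filter.mem_of_superset (VF_nhds F) fun k hk => hF _ hk.1 hk.2
  · rw [Subgroup.mem_comap, Subgroup.mem_comap, map_mul, map_mul, map_inv]
    constructor
    · exact h2 _
    · intro h5
      have := h3 _ h5
      have e : (toP g)⁻¹ * (toP g * toP h * (toP g)⁻¹) * toP g = toP h := by group
      rwa [e] at this

end Pool.Agent.H335.TC
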